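import Pool.Agent.H.MP_84cfc0_co.Kast

namespace Pool.Agent.H.MP_bab3d5_co

set_option linter.unusedSectionVars false

open Finset
open Pool.Agent.H.MP_84cfc0_co (Adj pairs_lt sign_eq)

structure Reg (X : Type) where
  co : X → ℕ × ℕ
  N : ℕ
  inj : Function.Injective co
  bd : ∀ x, (co x).1 < N ∧ (co x).2 < N

variable {X : Type} [Fintype X] [DecidableEq X] (A : Reg X)

def dg (p : X) : ℕ := (A.co p).2 + A.N - (A.co p).1

def key (p : X) : ℕ ×ₗ ℕ := toLex (dg A p, (A.co p).1)

omit [Fintype X] [DecidableEq X] in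
lemma key_lt (p q : X) :
    key A p < key A q ↔ dg A p < dg A q ∨ (dg A p = dg A q ∧ (A.co p).1 < (A.co q).1) := by
  simp [key, Prod.Lex.toLex_lt_toLex]

omit [Fintype X] [DecidableEq X] in
lemma Q_ext {p q : X} (h1 : (A.co p).1 = (A.co q).1) (h2 : (A.co p).2 = (A.co q).2) : p = q :=
  A.inj (Prod.ext h1 h2)

omit [Fintype X] [DecidableEq X] in
lemma key_inj : Function.Injective (key A) := by
  intro p q h
  have h' := toLex.injective h
  simp only [Prod.mk.injEq, dg] at h'
  have := A.bd p; have := A.bd q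
  exact Q_ext A h'.2 (by omega)

def idx (y : X) : ℕ := #{x : X | dg A x = dg A y ∧ (A.co x).1 < (A.co y).1}

lemma idx_succ (y y' : X) (h1 : (A.co y').1 = (A.co y).1 + 1) (h2 : (A.co y').2 = (A.co y).2 + 1) :
    idx A y' = idx A y + 1 := by
  have := A.bd y; have := A.bd y'
  rw [idx, idx, ← card_insert_of_notMem (a := y) (by simp)]
  congr 1
  ext x
  have := A.bd x
  simp only [mem_filter, mem_univ, true_and, mem_insert, dg]
  constructor
  · intro h
    by_cases hx : (A.co x).1 = (A.co y).1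
    · exact Or.inl (Q_ext A hx (by omega))
    · right; omega
  · rintro (rfl | h) <;> omega

section
variable (g : X → X) (hg : ∀ x, g (g x) = x) (ha : ∀ x, Adj (A.co x) (A.co (g x)))
include hg ha

lemma inv_eq :
    #{z : X × X | ((A.co z.1).1 + (A.co z.1).2) % 2 = 0 ∧ ((A.co z.2).1 + (A.co z.2).2) % 2 = 0 ∧
      key A z.1 < key A z.2 ∧ key A (g z.2) < key A (g z.1)} =
    #{z : X × X | dg A z.1 = dg A z.2 ∧ (A.co z.1).1 < (A.co z.2).1 ∧ ¬ dg A (g z.1) < dg A z.1 ∧
      dg A (g z.2) < dg A z.2} := by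
  have hne : ∀ x y : X, ((A.co x).1 = (A.co y).1 ∧ (A.co x).2 = (A.co y).2) ∨
      ¬ ((A.co (g x)).1 = (A.co (g y)).1 ∧ (A.co (g x)).2 = (A.co (g y)).2) := by
    intro x y
    by_cases h : (A.co (g x)).1 = (A.co (g y)).1 ∧ (A.co (g x)).2 = (A.co (g y)).2
    · have := congrArg g (Q_ext A h.1 h.2)
      rw [hg, hg] at this
      subst this
      simp
    · exact Or.inr h
  refine Finset.card_bij' (fun z _ => if dg A z.1 = dg A z.2 then z else (g z.2, g z.1))
    (fun z _ => if ((A.co z.1).1 + (A.co z.1).2) % 2 = 0 then z else (g z.2, g z.1)) ?_ ?_ ?_ ?_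
  · rintro ⟨x, y⟩ hz
    have h1 := ha x; have h2 := ha y; have h3 := hne x y
    have := A.bd x; have := A.bd y; have := A.bd (g x); have := A.bd (g y)
    simp only [mem_filter, mem_univ, true_and, key_lt A] at hz ⊢
    split_ifs with h <;> simp only [hg, dg, Adj] at * <;> omega
  · rintro ⟨x, y⟩ hz
    have h1 := ha x; have h2 := ha y; have h3 := hne x y
    have := A.bd x; have := A.bd y; have := A.bd (g x); have := A.bd (g y)
    simp only [mem_filter, mem_univ, true_and, key_lt A] at hz ⊢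
    split_ifs with h <;> simp only [hg, dg, Adj] at * <;> omega
  · rintro ⟨x, y⟩ hz
    have h1 := ha x; have h2 := ha y
    simp only [mem_filter, mem_univ, true_and] at hz
    by_cases h : dg A x = dg A y
    · simp [h, hz.1]
    · have : ¬ ((A.co (g y)).1 + (A.co (g y)).2) % 2 = 0 := by
        simp only [Adj] at h2; omega
      simp [h, this, hg]
  · rintro ⟨x, y⟩ hz
    have h1 := ha x; have h2 := ha y
    have := A.bd x; have := A.bd y; have := A.bd (g x); have := A.bd (g y)
    simp only [mem_filter, mem_univ, true_and] at hz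
    by_cases h : ((A.co x).1 + (A.co x).2) % 2 = 0
    · simp [h, hz.1]
    · have : ¬ dg A (g y) = dg A (g x) := by omega
      simp [h, this, hg]

omit hg ha in
lemma sum_min :
    #{z : X × X | dg A z.1 = dg A z.2 ∧ (A.co z.1).1 < (A.co z.2).1 ∧ dg A (g z.2) < dg A z.2} =
      ∑ y : X, if dg A (g y) < dg A y then idx A y else 0 := by
  rw [card_filter, Fintype.sum_prod_type_right]
  refine sum_congr rfl fun y _ => ?_
  split_ifs with h
  · rw [idx, card_filter]; simp [h]
  · simp [h]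

omit g hg ha in
def dn : ℕ → ℕ
  | 0 => 0
  | k + 1 => #{y : X | dg A y = k} - dn k

lemma cnt_dn (k : ℕ) : #{y : X | dg A y = k ∧ dg A (g y) < dg A y} = dn A k := by
  induction k with
  | zero => simp [dn]; intro a b; omega
  | succ k ih =>
    rw [dn, ← ih]
    have h1 : #{y : X | dg A y = k ∧ dg A (g y) < dg A y} + #{y : X | dg A y = k ∧ ¬ dg A (g y) < dg A y}
        = #{y : X | dg A y = k} := by
      rw [← filter_filter, ← filter_filter, card_filter_add_card_filter_not]
    rw [← h1, Nat.add_sub_cancel_left]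
    refine Finset.card_bij' (fun y _ => g y) (fun y _ => g y) ?_ ?_ (fun y _ => hg y)
      (fun y _ => hg y)
    · intro y hy
      have h1 := ha y
      have := A.bd y; have := A.bd (g y)
      simp only [mem_filter, mem_univ, true_and, hg, dg, Adj] at *
      omega
    · intro y hy
      have h1 := ha y
      have := A.bd y; have := A.bd (g y)
      simp only [mem_filter, mem_univ, true_and, hg, dg, Adj] at *
      omega

lemma dd_eq :
    #{z : X × X | dg A z.1 = dg A z.2 ∧ (A.co z.1).1 < (A.co z.2).1 ∧ dg A (g z.1) < dg A z.1 ∧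
      dg A (g z.2) < dg A z.2} = ∑ k ∈ range (2 * A.N), (dn A k).choose 2 := by
  rw [card_eq_sum_card_fiberwise (f := fun z => dg A z.1) (t := range (2 * A.N))
    (fun z _ => by have := A.bd z.1; simp only [coe_range, Set.mem_Iio, dg]; omega)]
  refine sum_congr rfl fun k _ => ?_
  rw [← cnt_dn A g hg ha k, ← pairs_lt (key A) (key_inj A)]
  congr 1
  ext ⟨x, y⟩
  simp only [mem_filter, mem_univ, true_and, mem_product, key_lt A]
  omega

lemma par_eq :
    #{z : X × X | ((A.co z.1).1 + (A.co z.1).2) % 2 = 0 ∧ ((A.co z.2).1 + (A.co z.2).2) % 2 = 0 ∧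
      key A z.1 < key A z.2 ∧ key A (g z.2) < key A (g z.1)} + ∑ k ∈ range (2 * A.N), (dn A k).choose 2 =
      ∑ y : X, if dg A (g y) < dg A y then idx A y else 0 := by
  rw [inv_eq A g hg ha, ← dd_eq A g hg ha, ← sum_min A g, add_comm,
    ← card_filter_add_card_filter_not (s := ({z : X × X | dg A z.1 = dg A z.2 ∧
      (A.co z.1).1 < (A.co z.2).1 ∧ dg A (g z.2) < dg A z.2} : Finset _))
      (fun z : X × X => dg A (g z.1) < dg A z.1),
    filter_filter, filter_filter]
  refine congrArg₂ (· + ·) (congrArg card ?_) (congrArg card ?_) <;> ext z <;>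
    simp only [mem_filter, mem_univ, true_and] <;> tauto

end

def mn (x y : X) : ℕ := if dg A y < dg A x then idx A x else idx A y

theorem kast {I : Type} [Fintype I] [DecidableEq I] (β ω : I → X)
    (hβ : Function.Injective β) (hω : Function.Injective ω)
    (hb : ∀ y : X, ((A.co y).1 + (A.co y).2) % 2 = 0 ↔ ∃ i, β i = y)
    (hw : ∀ y : X, ((A.co y).1 + (A.co y).2) % 2 = 1 ↔ ∃ i, ω i = y)
    (E : X → X → Prop) [DecidableRel E] (γ : X → ℤ) (hγ : ∀ y, |γ y| = 1)
    (K : Matrix I I ℤ)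
    (hK : ∀ i j, K i j = if Adj (A.co (β i)) (A.co (ω j)) ∧ E (β i) (ω j) then
      γ (β i) * γ (ω j) * (-1) ^ mn A (β i) (ω j) else 0) :
    |K.det| = Nat.card {g : X → X //
      (∀ x, g (g x) = x ∧ Adj (A.co x) (A.co (g x))) ∧ ∀ i, E (β i) (g (β i))} := by
  have hb' : ∀ i, ((A.co (β i)).1 + (A.co (β i)).2) % 2 = 0 := fun i => (hb _).2 ⟨i, rfl⟩
  have hw' : ∀ i, ((A.co (ω i)).1 + (A.co (ω i)).2) % 2 = 1 := fun i => (hw _).2 ⟨i, rfl⟩
  have hbij : Function.Bijective (Sum.elim β ω) := by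
    constructor
    · refine hβ.sumElim hω fun a b h => ?_
      have h1 := hb' a; have h2 := hw' b
      rw [h] at h1; omega
    · intro y
      rcases Nat.mod_two_eq_zero_or_one ((A.co y).1 + (A.co y).2) with h | h
      · obtain ⟨i, hi⟩ := (hb y).1 h; exact ⟨Sum.inl i, hi⟩
      · obtain ⟨i, hi⟩ := (hw y).1 h; exact ⟨Sum.inr i, hi⟩
  let eQ : I ⊕ I ≃ X := Equiv.ofBijective _ hbij
  have e1 : ∀ i, eQ.symm (β i) = Sum.inl i := fun i => eQ.symm_apply_eq.2 rfl
  have e2 : ∀ i, eQ.symm (ω i) = Sum.inr i := fun i => eQ.symm_apply_eq.2 rfl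
  let G : Equiv.Perm I → X → X := fun π y =>
    Sum.elim (fun i => ω (π i)) (fun i => β (π.symm i)) (eQ.symm y)
  have G1 : ∀ π i, G π (β i) = ω (π i) := fun π i => by simp [G, e1]
  have G2 : ∀ π i, G π (ω i) = β (π.symm i) := fun π i => by simp [G, e2]
  have cs : ∀ y : X, (∃ i, β i = y) ∨ ∃ i, ω i = y := fun y => by
    rw [← hb, ← hw]; omega
  have Ginv : ∀ π y, G π (G π y) = y := fun π y => by
    rcases cs y with ⟨i, rfl⟩ | ⟨i, rfl⟩ <;> simp [G1, G2]
  let P : Equiv.Perm I → Prop := fun π => ∀ i, Adj (A.co (β i)) (A.co (ω (π i))) ∧ E (β i) (ω (π i))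
  have Gadj : ∀ π, P π → ∀ y, Adj (A.co y) (A.co (G π y)) := fun π h y => by
    rcases cs y with ⟨i, rfl⟩ | ⟨i, rfl⟩
    · rw [G1]; exact (h i).1
    · rw [G2]
      have := (h (π.symm i)).1
      rw [Equiv.apply_symm_apply] at this
      simp only [Adj] at this ⊢; omega
  obtain ⟨c, hc, hs⟩ := sign_eq (fun i => key A (β i)) (fun i => key A (ω i))
    ((key_inj A).comp hβ) ((key_inj A).comp hω)
  set D := ∑ k ∈ range (2 * A.N), (dn A k).choose 2 with hD
  have hterm : ∀ π : Equiv.Perm I, ((Equiv.Perm.sign π : ℤˣ) : ℤ) * ∏ i, K i (π i) =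
      if P π then c * (-1) ^ D * ((∏ i, γ (β i)) * ∏ i, γ (ω i)) else 0 := by
    intro π
    split_ifs with h
    · have h1 : ∏ i, K i (π i) = ((∏ i, γ (β i)) * ∏ i, γ (ω i)) *
          (-1) ^ ∑ i, mn A (β i) (ω (π i)) := by
        rw [← Equiv.prod_comp π (fun i => γ (ω i)), ← prod_mul_distrib, ← prod_pow_eq_pow_sum,
          ← prod_mul_distrib]
        exact prod_congr rfl fun i _ => by rw [hK, if_pos (h i)]
      have h2 := par_eq A (G π) (Ginv π) (Gadj π h)
      have h3 : (∑ y : X, if dg A (G π y) < dg A y then idx A y else 0) =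
          ∑ i, mn A (β i) (ω (π i)) := by
        rw [← Equiv.sum_comp eQ, Fintype.sum_sum_type,
          ← Equiv.sum_comp π (fun i => if dg A (G π (eQ (Sum.inr i))) < dg A (eQ (Sum.inr i)) then
            idx A (eQ (Sum.inr i)) else 0), ← sum_add_distrib]
        refine sum_congr rfl fun i _ => ?_
        have a1 : eQ (Sum.inl i) = β i := rfl
        have a2 : eQ (Sum.inr (π i)) = ω (π i) := rfl
        rw [a1, a2, G1, G2, Equiv.symm_apply_apply, mn]
        have := (h i).1
        have := A.bd (β i); have := A.bd (ω (π i))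
        simp only [Adj, dg] at *
        split_ifs <;> omega
      have h4 : #{z : X × X | ((A.co z.1).1 + (A.co z.1).2) % 2 = 0 ∧ ((A.co z.2).1 + (A.co z.2).2) % 2 = 0 ∧
          key A z.1 < key A z.2 ∧ key A (G π z.2) < key A (G π z.1)} =
          #{z : I × I | key A (β z.1) < key A (β z.2) ∧ key A (ω (π z.2)) < key A (ω (π z.1))} := by
        symm
        refine Finset.card_bij (fun z _ => (β z.1, β z.2)) ?_ ?_ ?_
        · rintro ⟨a, b⟩ hz
          simpa [hb', G1] using hz
        · rintro ⟨a, b⟩ _ ⟨a', b'⟩ _ h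
          simp only [Prod.mk.injEq] at h ⊢
          exact ⟨hβ h.1, hβ h.2⟩
        · rintro ⟨x, y⟩ hz
          simp only [mem_filter, mem_univ, true_and] at hz
          obtain ⟨a, rfl⟩ := (hb x).1 hz.1
          obtain ⟨b, rfl⟩ := (hb y).1 hz.2.1
          exact ⟨(a, b), by simpa [G1] using hz.2.2, rfl⟩
      rw [h1, hs π, ← h3, ← h2, h4, pow_add, ← hD]
      generalize #{z : I × I | key A (β z.1) < key A (β z.2) ∧
        key A (ω (π z.2)) < key A (ω (π z.1))} = t
      have : ((-1 : ℤ) ^ t) * (-1) ^ t = 1 := by rw [← mul_pow]; simp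
      linear_combination (c * (-1) ^ D * ((∏ i, γ (β i)) * ∏ i, γ (ω i))) * this
    · simp only [P, not_forall] at h
      obtain ⟨i, hi⟩ := h
      rw [prod_eq_zero (mem_univ i) (by rw [hK, if_neg hi]), mul_zero]
  have hdet : K.det = (#{π | P π} : ℤ) * (c * (-1) ^ D * ((∏ i, γ (β i)) * ∏ i, γ (ω i))) := by
    rw [← Matrix.det_transpose, Matrix.det_apply']
    simp only [Matrix.transpose_apply, Int.cast_id]
    rw [sum_congr rfl fun π _ => hterm π, ← sum_filter, sum_const, nsmul_eq_mul]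
  have hcabs : |c| = 1 := by
    rcases Int.eq_one_or_neg_one_of_mul_eq_one hc with h | h <;> simp [h]
  rw [hdet]
  simp only [abs_mul, hcabs, abs_pow, abs_neg, abs_one, one_pow, Finset.abs_prod, hγ,
    prod_const_one, mul_one, Nat.abs_cast]
  congr 1
  rw [← Fintype.card_subtype, ← Nat.card_eq_fintype_card]
  refine Nat.card_eq_of_bijective (fun π => ⟨G π.1, fun x => ⟨Ginv _ x, Gadj _ π.2 x⟩,
    fun i => by rw [G1]; exact (π.2 i).2⟩) ⟨?_, ?_⟩
  · rintro ⟨π, _⟩ ⟨π', _⟩ h
    simp only [Subtype.mk.injEq] at h ⊢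
    ext i
    have := congrFun h (β i)
    rw [G1, G1] at this
    exact hω this
  · rintro ⟨g, hg, hE⟩
    have x1 : ∀ i, ∃ j, ω j = g (β i) := fun i => (hw _).1 (by
      have := (hg (β i)).2; have := hb' i; simp only [Adj] at *; omega)
    have x2 : ∀ j, ∃ i, β i = g (ω j) := fun j => (hb _).1 (by
      have := (hg (ω j)).2; have := hw' j; simp only [Adj] at *; omega)
    choose f1 hf1 using x1
    choose f2 hf2 using x2
    let π : Equiv.Perm I := ⟨f1, f2, fun i => hβ (by rw [hf2, hf1, (hg _).1]),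
      fun j => hω (by rw [hf1, hf2, (hg _).1])⟩
    refine ⟨⟨π, fun i => ?_⟩, Subtype.ext (funext fun y => ?_)⟩
    · have : ω (π i) = g (β i) := hf1 i
      rw [this]; exact ⟨(hg _).2, hE i⟩
    · rcases cs y with ⟨i, rfl⟩ | ⟨i, rfl⟩
      · exact (G1 _ _).trans (hf1 i)
      · exact (G2 _ _).trans (hf2 i)

end Pool.Agent.H.MP_bab3d5_co
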