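import Pool.Agent.H.MP_bab3d5_co.Kast

namespace Pool.Agent.H.MP_bab3d5_co

open Finset Matrix
open Pool.Agent.H.MP_84cfc0_co (Adj)

lemma four_dvd {V Y : Type} [Fintype V] [DecidableEq V] [Fintype Y] (B : Matrix V Y ℤ) (x0 : V)
    (h : ∀ y, Even (∑ x, B x y)) : 4 ∣ (B * Bᵀ).det := by
  choose z hz using h
  let P : Matrix V V ℤ := (1 : Matrix V V ℤ).updateRow x0 (∑ k, (1 : ℤ) • (1 : Matrix V V ℤ) k)
  have hP : P.det = 1 := by
    simp only [P]; rw [det_updateRow_sum (1 : Matrix V V ℤ) x0 (fun _ => 1)]; simp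
  let D : Matrix V V ℤ := diagonal (Function.update 1 x0 2)
  have hD : D.det = 2 := by
    simp only [D]; rw [det_diagonal, prod_update_of_mem (mem_univ _)]; simp
  have h1 : P * B = D * B.updateRow x0 z := by
    ext a y
    by_cases ha : a = x0
    · subst ha
      simp [P, D, mul_apply, one_apply, diagonal_apply, hz, two_mul]
    · simp [P, D, mul_apply, one_apply, diagonal_apply, ha]
  have h2 : (P * B) * (P * B)ᵀ = P * (B * Bᵀ) * Pᵀ := by
    simp [transpose_mul, Matrix.mul_assoc]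
  have h3 : (D * B.updateRow x0 z) * (D * B.updateRow x0 z)ᵀ =
      D * (B.updateRow x0 z * (B.updateRow x0 z)ᵀ) * Dᵀ := by
    simp [transpose_mul, Matrix.mul_assoc]
  rw [h1, h3] at h2
  have := congrArg det h2
  simp only [det_mul (M := _ * _), det_mul D, det_mul P, det_transpose, hP, hD] at this
  exact ⟨(B.updateRow x0 z * (B.updateRow x0 z)ᵀ).det, by linear_combination -this⟩

lemma even_det {V : Type} [Fintype V] [DecidableEq V] (M : Matrix V V ℤ) (hs : ∀ a b, M a b = M b a)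
    (hd : ∀ a, Even (M a a)) (ho : Odd (Fintype.card V)) : Even M.det := by
  let e := Fintype.equivFin V
  let S : Matrix V V ℤ := Matrix.of fun a b =>
    if e a < e b then M a b else if e b < e a then -M a b else 0
  have hS : Sᵀ = -S := by
    ext a b
    simp only [S, transpose_apply, of_apply, Matrix.neg_apply, hs b a]
    split_ifs <;> omega
  have h0 : S.det = 0 := by
    have h1 : S.det = (-1) ^ Fintype.card V * S.det := by
      rw [← Matrix.det_neg, ← hS, det_transpose]
    rw [ho.neg_one_pow] at h1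
    omega
  have h2 : (Int.castRingHom (ZMod 2)).mapMatrix M = (Int.castRingHom (ZMod 2)).mapMatrix S := by
    ext a b
    simp only [S, RingHom.mapMatrix_apply, map_apply, of_apply, eq_intCast]
    split_ifs with h1 h2
    · rfl
    · simp
    · have : a = b := e.injective (le_antisymm (not_lt.1 h2) (not_lt.1 h1))
      subst this
      simpa using (ZMod.intCast_eq_zero_iff_even).2 (hd a)
  rw [← ZMod.intCast_eq_zero_iff_even]
  have := (Int.castRingHom (ZMod 2)).map_det M
  rw [h2, ← RingHom.map_det, h0] at this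
  simpa using this

lemma card_even (a : ℕ) : #{i ∈ range (2 * a + 2) | 1 ≤ i ∧ i % 2 = 0} = a := by
  rw [← card_range a]
  refine card_bij (fun i _ => i / 2 - 1) ?_ ?_ ?_
  · intro i hi; simp only [mem_filter, mem_range, card_range] at hi ⊢; omega
  · intro i hi j hj; simp only [mem_filter, mem_range] at hi hj; omega
  · intro j hj
    exact ⟨2 * j + 2, by simp only [mem_filter, mem_range, card_range] at hj ⊢; omega, by omega⟩

theorem main (a b : ℕ) (hab : Even (a * b)) (h : ℕ × ℕ) (h1 : 1 ≤ h.1) (h2 : h.1 ≤ 2 * a + 1)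
    (h3 : 1 ≤ h.2) (h4 : h.2 ≤ 2 * b + 1) (h5 : h.1 % 2 = 0) (h6 : h.2 % 2 = 0) (R : Set (ℕ × ℕ))
    (hR : ∀ p, p ∈ R ↔ 1 ≤ p.1 ∧ p.1 ≤ 2 * a + 1 ∧ 1 ≤ p.2 ∧ p.2 ≤ 2 * b + 1 ∧
      ¬ (p.1 = h.1 ∧ p.2 = h.2)) :
    4 ∣ Nat.card {f : R → R // ∀ x : R, f (f x) = x ∧ Adj x.1 (f x).1} := by
  classical
  have hfin : R.Finite := (finite_toSet (range (2 * a + 2) ×ˢ range (2 * b + 2))).subset
    fun p hp => by rw [hR] at hp; simp; omega
  let _ : Fintype R := hfin.fintype
  rcases isEmpty_or_nonempty {f : R → R // ∀ x : R, f (f x) = x ∧ Adj x.1 (f x).1} with he | he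
  · rw [Nat.card_of_isEmpty]; simp
  obtain ⟨g, hg⟩ := he
  let A : Reg R := ⟨Subtype.val, 2 * a + 2 * b + 2, Subtype.val_injective, fun x => by
    have := (hR _).1 x.2; omega⟩
  have hco : ∀ x, A.co x = x.1 := fun _ => rfl
  have hN : A.N = 2 * a + 2 * b + 2 := rfl
  let I := {x : R // (x.1.1 + x.1.2) % 2 = 0}
  let k : R → R → ℤ := fun x y => if Adj x.1 y.1 then (-1) ^ mn A x y else 0
  let K : Matrix I I ℤ := Matrix.of fun i j => k i.1 (g j.1)
  have ginj : Function.Injective g := fun x y hxy => by rw [← (hg x).1, hxy, (hg y).1]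
  have hw : ∀ y : R, (y.1.1 + y.1.2) % 2 = 1 ↔ ∃ i : I, g i.1 = y := by
    intro y
    constructor
    · intro hy
      refine ⟨⟨g y, ?_⟩, (hg y).1⟩
      have := (hg y).2; simp only [Adj] at this; omega
    · rintro ⟨i, rfl⟩
      have := (hg i.1).2; have := i.2; simp only [Adj] at *; omega
  have hK := kast A (I := I) Subtype.val (fun j => g j.1) Subtype.val_injective
    (ginj.comp Subtype.val_injective) (fun y => ⟨fun hy => ⟨⟨y, hy⟩, rfl⟩, by
      rintro ⟨i, rfl⟩; exact i.2⟩) hw (fun _ _ => True) (fun _ => 1) (by simp) K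
    (fun i j => by simp [K, k, hco])
  simp only [implies_true, and_true, hco] at hK
  have hS : ∀ i i' : I, (K * Kᵀ) i i' = ∑ y : R, k i.1 y * k i'.1 y := by
    intro i i'
    rw [mul_apply]
    refine Fintype.sum_of_injective (fun j : I => g j.1) (ginj.comp Subtype.val_injective) _ _
      (fun y hy => ?_) (fun j => rfl)
    have : ¬ (y.1.1 + y.1.2) % 2 = 1 := fun h' => hy ((hw y).1 h')
    have := i.2
    simp only [k]
    rw [if_neg, zero_mul]
    simp only [Adj]; omega
  have spt : ∀ (φ : R → ℤ) (y0 : R),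
      ∑ y : R, (if y.1.1 = y0.1.1 ∧ y.1.2 = y0.1.2 then φ y else 0) = φ y0 := by
    intro φ y0
    rw [sum_eq_single y0] <;> simp +contextual [Subtype.ext_iff, Prod.ext_iff]
  let p : I → Prop := fun i => i.1.1.1 % 2 = 1
  have cross : ∀ x x' : I, p x → ¬ p x' → ∑ y : R, k x.1 y * k x'.1 y = 0 := by
    rintro ⟨x, hx⟩ ⟨x', hx'⟩ hp hp'
    simp only [p] at hp hp' ⊢
    have b1 := (hR _).1 x.2
    have b2 := (hR _).1 x'.2
    by_cases hd : (x'.1.1 + 1 = x.1.1 ∨ x.1.1 + 1 = x'.1.1) ∧
        (x'.1.2 + 1 = x.1.2 ∨ x.1.2 + 1 = x'.1.2)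
    · let y1 : R := ⟨(x.1.1, x'.1.2), (hR _).2 (by simp only; omega)⟩
      let y2 : R := ⟨(x'.1.1, x.1.2), (hR _).2 (by simp only; omega)⟩
      let φ : R → ℤ := fun y => (-1) ^ mn A x y * (-1) ^ mn A x' y
      have : ∀ y : R, k x y * k x' y = (if y.1.1 = y1.1.1 ∧ y.1.2 = y1.1.2 then φ y else 0) +
          (if y.1.1 = y2.1.1 ∧ y.1.2 = y2.1.2 then φ y else 0) := by
        intro y
        simp only [k, y1, y2, φ, Adj]
        generalize ((-1 : ℤ) ^ mn A x y) = s
        generalize ((-1 : ℤ) ^ mn A x' y) = t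
        clear * - hd
        rcases hd with ⟨e1 | e1, e2 | e2⟩ <;> split_ifs <;> omega
      rw [sum_congr rfl fun y _ => this y, sum_add_distrib, spt, spt]
      have i1 := idx_succ A x x'
      have i2 := idx_succ A x' x
      have i3 := idx_succ A y1 y2
      have i4 := idx_succ A y2 y1
      have d1 : dg A y1 = x'.1.2 + (2 * a + 2 * b + 2) - x.1.1 := rfl
      have d2 : dg A y2 = x.1.2 + (2 * a + 2 * b + 2) - x'.1.1 := rfl
      have d3 : dg A x = x.1.2 + (2 * a + 2 * b + 2) - x.1.1 := rfl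
      have d4 : dg A x' = x'.1.2 + (2 * a + 2 * b + 2) - x'.1.1 := rfl
      have sq : ∀ t : ℕ, (-1 : ℤ) ^ t * (-1) ^ t = 1 := fun t => by rw [← mul_pow]; simp
      simp only [φ, mn]
      rcases hd with ⟨e1 | e1, e2 | e2⟩ <;> simp (disch := omega) only [if_pos, if_neg]
      · rw [i2 e1.symm e2.symm, pow_succ]; linear_combination sq (idx A y2) - sq (idx A x')
      · rw [i4 e1.symm e2.symm, pow_succ]; ring
      · rw [i3 e1.symm e2.symm, pow_succ]; ring
      · rw [i1 e1.symm e2.symm, pow_succ]; linear_combination sq (idx A y1) - sq (idx A x)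
    · refine sum_eq_zero fun y _ => ?_
      simp only [k, Adj]
      clear * - hd hx hx' hp hp'
      split_ifs <;> omega
  have hdet : K.det * K.det = (toSquareBlockProp (K * Kᵀ) p).det *
      (toSquareBlockProp (K * Kᵀ) fun i => ¬ p i).det := by
    rw [← twoBlockTriangular_det' _ p (fun i hi j hj => by rw [hS, cross i j hi hj]), det_mul,
      det_transpose]
  have hV : 4 ∣ (toSquareBlockProp (K * Kᵀ) p).det := by
    let B : Matrix {i // p i} I ℤ := Matrix.of fun i j => K i.1 j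
    have : toSquareBlockProp (K * Kᵀ) p = B * Bᵀ := by
      ext i j; simp [toSquareBlockProp_def, B, mul_apply]
    rw [this]
    refine four_dvd B ⟨⟨⟨(1, 1), (hR _).2 (by simp only; omega)⟩, by
      show (1 + 1) % 2 = 0; rfl⟩, by show 1 % 2 = 1; rfl⟩ fun j => ?_
    have hy := (hw (g j.1)).2 ⟨j, rfl⟩
    have e : ∑ x, B x j = ∑ x : R, if x.1.1 % 2 = 1 ∧ x.1.2 % 2 = 1 then k x (g j.1) else 0 := by
      refine Fintype.sum_of_injective (fun x : {i // p i} => x.1.1)
        (Subtype.val_injective.comp Subtype.val_injective) _ _ (fun x hx => if_neg fun h' =>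
          hx ⟨⟨⟨x, by omega⟩, h'.1⟩, rfl⟩) (fun x => ?_)
      have c1 : x.1.1.1.1 % 2 = 1 := x.2
      have c2 := x.1.2
      rw [if_pos ⟨c1, by omega⟩]
      rfl
    rw [e]
    generalize g j.1 = y at hy
    have b1 := (hR _).1 y.2
    have od : ∀ t : ℕ, Odd ((-1 : ℤ) ^ t) := fun t => odd_neg_one.pow
    by_cases hy1 : y.1.1 % 2 = 1
    · let n1 : R := ⟨(y.1.1, y.1.2 + 1), (hR _).2 (by simp only; omega)⟩
      let n2 : R := ⟨(y.1.1, y.1.2 - 1), (hR _).2 (by simp only; omega)⟩
      have : ∀ x : R, (if x.1.1 % 2 = 1 ∧ x.1.2 % 2 = 1 then k x y else 0) =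
          (if x.1.1 = n1.1.1 ∧ x.1.2 = n1.1.2 then (-1) ^ mn A x y else 0) +
          (if x.1.1 = n2.1.1 ∧ x.1.2 = n2.1.2 then (-1) ^ mn A x y else 0) := by
        intro x
        simp only [k, n1, n2, Adj]
        generalize ((-1 : ℤ) ^ mn A x y) = s
        clear * - hy hy1 b1
        split_ifs <;> omega
      rw [sum_congr rfl fun y _ => this y, sum_add_distrib, spt (fun x => (-1) ^ mn A x y),
        spt (fun x => (-1) ^ mn A x y)]
      exact (od _).add_odd (od _)
    · let n1 : R := ⟨(y.1.1 + 1, y.1.2), (hR _).2 (by simp only; omega)⟩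
      let n2 : R := ⟨(y.1.1 - 1, y.1.2), (hR _).2 (by simp only; omega)⟩
      have : ∀ x : R, (if x.1.1 % 2 = 1 ∧ x.1.2 % 2 = 1 then k x y else 0) =
          (if x.1.1 = n1.1.1 ∧ x.1.2 = n1.1.2 then (-1) ^ mn A x y else 0) +
          (if x.1.1 = n2.1.1 ∧ x.1.2 = n2.1.2 then (-1) ^ mn A x y else 0) := by
        intro x
        simp only [k, n1, n2, Adj]
        generalize ((-1 : ℤ) ^ mn A x y) = s
        clear * - hy hy1 b1
        split_ifs <;> omega
      rw [sum_congr rfl fun y _ => this y, sum_add_distrib, spt (fun x => (-1) ^ mn A x y),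
        spt (fun x => (-1) ^ mn A x y)]
      exact (od _).add_odd (od _)
  have hF : Even (toSquareBlockProp (K * Kᵀ) fun i => ¬ p i).det := by
    refine even_det _ (fun i j => ?_) (fun i => ?_) ?_
    · simp only [toSquareBlockProp_def, of_apply, hS, mul_comm]
    · simp only [toSquareBlockProp_def, of_apply, hS]
      obtain ⟨⟨x, hx⟩, hp⟩ := i
      simp only [p] at hp ⊢
      have b1 := (hR _).1 x.2
      let n1 : R := ⟨(x.1.1, x.1.2 + 1), (hR _).2 (by simp only; omega)⟩
      let n2 : R := ⟨(x.1.1, x.1.2 - 1), (hR _).2 (by simp only; omega)⟩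
      let n3 : R := ⟨(x.1.1 + 1, x.1.2), (hR _).2 (by simp only; omega)⟩
      let n4 : R := ⟨(x.1.1 - 1, x.1.2), (hR _).2 (by simp only; omega)⟩
      have sq : ∀ t : ℕ, (-1 : ℤ) ^ t * (-1) ^ t = 1 := fun t => by rw [← mul_pow]; simp
      have : ∀ y : R, k x y * k x y =
          (if y.1.1 = n1.1.1 ∧ y.1.2 = n1.1.2 then 1 else 0) +
          (if y.1.1 = n2.1.1 ∧ y.1.2 = n2.1.2 then 1 else 0) +
          (if y.1.1 = n3.1.1 ∧ y.1.2 = n3.1.2 then 1 else 0) +
          (if y.1.1 = n4.1.1 ∧ y.1.2 = n4.1.2 then 1 else 0) := by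
        intro y
        have e : k x y * k x y = if Adj x.1 y.1 then 1 else 0 := by
          simp only [k]; split_ifs <;> simp [sq]
        simp only [e, n1, n2, n3, n4, Adj]
        clear * - hx hp b1
        split_ifs <;> omega
      rw [sum_congr rfl fun y _ => this y, sum_add_distrib, sum_add_distrib, sum_add_distrib,
        spt (fun _ => 1), spt (fun _ => 1), spt (fun _ => 1), spt (fun _ => 1)]
      decide
    · have : Fintype.card {i : I // ¬ p i} =
          #(({i ∈ range (2 * a + 2) | 1 ≤ i ∧ i % 2 = 0} ×ˢ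
            {i ∈ range (2 * b + 2) | 1 ≤ i ∧ i % 2 = 0}).erase h) := by
        rw [← card_univ]
        refine card_bij (fun i _ => i.1.1.1) ?_ ?_ ?_
        · rintro ⟨⟨x, hx⟩, hp⟩ _
          have b1 := (hR _).1 x.2
          simp only [p, mem_erase, mem_product, mem_filter, mem_range, ne_eq, Prod.ext_iff] at hp ⊢
          omega
        · intro i _ j _ hij
          exact Subtype.ext (Subtype.ext (Subtype.ext hij))
        · intro q hq
          simp only [mem_erase, mem_product, mem_filter, mem_range, ne_eq, Prod.ext_iff] at hq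
          exact ⟨⟨⟨⟨q, (hR _).2 (by omega)⟩, by simp only; omega⟩, by simp only [p]; omega⟩,
            mem_univ _, rfl⟩
      have hm : h ∈ ({i ∈ range (2 * a + 2) | 1 ≤ i ∧ i % 2 = 0} ×ˢ
            {i ∈ range (2 * b + 2) | 1 ≤ i ∧ i % 2 = 0}) := by
        simp only [mem_product, mem_filter, mem_range]; omega
      have hpos := card_pos.2 ⟨h, hm⟩
      rw [this, card_erase_of_mem hm]
      rw [card_product, card_even, card_even] at hpos ⊢
      obtain ⟨l, hl⟩ := hab
      exact ⟨l - 1, by omega⟩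
  obtain ⟨u, hu⟩ := hV
  obtain ⟨v, hv⟩ := hF
  rw [← abs_mul_self, abs_mul, hK, hu, hv] at hdet
  generalize Nat.card {f : R → R // ∀ x : R, f (f x) = x ∧ Adj x.1 (f x).1} = T at hdet
  have h8 : (8 : ℤ) ∣ (T : ℤ) * T := ⟨u * v, by linear_combination hdet⟩
  have h8' : 8 ∣ T * T := by exact_mod_cast h8
  have : T % 8 = 0 ∨ T % 8 = 4 := by
    have h9 := Nat.mod_eq_zero_of_dvd h8'
    rw [Nat.mul_mod] at h9
    have : T % 8 < 8 := Nat.mod_lt _ (by norm_num)
    generalize T % 8 = t at *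
    interval_cases t <;> simp at h9 ⊢
  omega

end Pool.Agent.H.MP_bab3d5_co
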